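import Mathlib

/-!
# Zero-free entire functions of order at most two

If `H` is entire, without zeros, and `‖H z‖ ≤ exp (C (1 + ‖z‖ ^ 2))`, then
`H z = exp (d + b z + c z ^ 2)`.
-/

namespace Pool.Agent.R963.PhiL

open Complex Metric Filter Topology

lemma exists_entire_log {H : ℂ → ℂ} (hd : Differentiable ℂ H) (h0 : ∀ z, H z ≠ 0) :
    ∃ g : ℂ → ℂ, Differentiable ℂ g ∧ ∀ z, H z = exp (g z) := by
  have hG : Differentiable ℂ (fun z => deriv H z / H z) := by
    have h1 : Differentiable ℂ (deriv H) := (hd.contDiff (n := 2)).differentiable_deriv_two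
    exact h1.div hd h0
  obtain ⟨F, hF⟩ := hG.isExactOn_univ
  have hF' : ∀ z, HasDerivAt F (deriv H z / H z) z := fun z => hF z (Set.mem_univ z)
  have hFd : Differentiable ℂ F := fun z => (hF' z).differentiableAt
  set K : ℂ → ℂ := fun z => H z * exp (-F z) with hK
  have hKd : Differentiable ℂ K := hd.mul (hFd.neg.cexp)
  have hK0 : ∀ z, deriv K z = 0 := by
    intro z
    have h1 : HasDerivAt K (deriv H z * exp (-F z) + H z * (exp (-F z) * -(deriv H z / H z))) z :=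
      (hd z).hasDerivAt.mul ((hF' z).neg.cexp)
    rw [h1.deriv]
    field_simp [h0 z]
    ring
  have hconst : ∀ z, K z = K 0 := fun z => is_const_of_deriv_eq_zero hKd hK0 z 0
  have hK00 : K 0 ≠ 0 := mul_ne_zero (h0 0) (exp_ne_zero _)
  refine ⟨fun z => F z + log (K 0), hFd.add_const _, fun z => ?_⟩
  rw [exp_add, exp_log hK00, ← hconst z, hK]
  simp only
  rw [exp_neg]
  field_simp [exp_ne_zero]

theorem entire_quadratic {H : ℂ → ℂ} (hd : Differentiable ℂ H) (h0 : ∀ z, H z ≠ 0) {C : ℝ}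
    (hC : 0 < C) (hb : ∀ z, ‖H z‖ ≤ Real.exp (C * (1 + ‖z‖ ^ 2))) :
    ∃ b c d : ℂ, ∀ z, H z = exp (d + b * z + c * z ^ 2) := by
  obtain ⟨g, hg, hHg⟩ := exists_entire_log hd h0
  have hre : ∀ z, (g z).re ≤ C * (1 + ‖z‖ ^ 2) := by
    intro z
    have := hb z
    rw [hHg, norm_exp] at this
    exact Real.exp_le_exp.mp this
  have hbound : ∀ (r : ℝ), 0 < r → ∀ z, ‖z‖ ≤ r →
      ‖g z‖ ≤ 2 * (C * (1 + 4 * r ^ 2)) + 3 * ‖g 0‖ := by
    intro r hr z hz
    have hM : 0 < C * (1 + 4 * r ^ 2) := by positivity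
    have h1 := borelCaratheodory (f := g) (M := C * (1 + 4 * r ^ 2)) (R := 2 * r) (z := z) hM
      hg.differentiableOn (fun w hw => by
        have hw' : ‖w‖ < 2 * r := mem_ball_zero_iff.mp hw
        refine (hre w).trans ?_
        have : ‖w‖ ^ 2 ≤ 4 * r ^ 2 := by nlinarith [norm_nonneg w]
        nlinarith) (by linarith) (mem_ball_zero_iff.mpr (by linarith))
    refine h1.trans ?_
    have hpos : 0 < 2 * r - ‖z‖ := by linarith
    have h2 : 2 * (C * (1 + 4 * r ^ 2)) * ‖z‖ / (2 * r - ‖z‖) ≤ 2 * (C * (1 + 4 * r ^ 2)) := by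
      rw [div_le_iff₀ hpos]
      apply mul_le_mul_of_nonneg_left _ (by positivity)
      linarith
    have h3 : ‖g 0‖ * (2 * r + ‖z‖) / (2 * r - ‖z‖) ≤ 3 * ‖g 0‖ := by
      rw [div_le_iff₀ hpos]
      nlinarith [norm_nonneg (g 0)]
    linarith
  have h3 : ∀ w, iteratedDeriv 3 g w = 0 := by
    intro w
    have hle : ∀ r : ℝ, 1 ≤ r → ‖iteratedDeriv 3 g w‖ ≤
        6 * (2 * (C * (1 + 4 * (r + ‖w‖) ^ 2)) + 3 * ‖g 0‖) / r ^ 3 := by
      intro r hr
      have h := norm_iteratedDeriv_le_of_forall_mem_sphere_norm_le (c := w) (f := g) 3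
        (by linarith : 0 < r) hg.diffContOnCl
        (C := 2 * (C * (1 + 4 * (r + ‖w‖) ^ 2)) + 3 * ‖g 0‖) (fun z hz => by
          apply hbound (r + ‖w‖) (by linarith [norm_nonneg w]) z
          have h1 : ‖z - w‖ = r := mem_sphere_iff_norm.mp hz
          calc ‖z‖ = ‖(z - w) + w‖ := by rw [sub_add_cancel]
            _ ≤ ‖z - w‖ + ‖w‖ := norm_add_le _ _
            _ = r + ‖w‖ := by rw [h1])
      have h6 : ((Nat.factorial 3 : ℕ) : ℝ) = 6 := by norm_num [Nat.factorial]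
      rwa [h6] at h
    by_contra hne
    have hpos : 0 < ‖iteratedDeriv 3 g w‖ := norm_pos_iff.mpr hne
    -- crude bound
    set A : ℝ := 6 * (2 * (C * (1 + 4 * (1 + ‖w‖) ^ 2)) + 3 * ‖g 0‖) with hA
    have hA0 : 0 ≤ A := by positivity
    have hle2 : ∀ r : ℝ, 1 ≤ r → ‖iteratedDeriv 3 g w‖ ≤ A / r := by
      intro r hr
      refine (hle r hr).trans ?_
      have hr0 : (0 : ℝ) < r := by linarith
      rw [div_le_div_iff₀ (by positivity) hr0]
      have h1 : (r + ‖w‖) ^ 2 ≤ r ^ 2 * (1 + ‖w‖) ^ 2 := by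
        rw [← mul_pow]
        apply pow_le_pow_left₀ (by positivity)
        nlinarith [norm_nonneg w]
      have h2 : 6 * (2 * (C * (1 + 4 * (r + ‖w‖) ^ 2)) + 3 * ‖g 0‖) ≤ A * r ^ 2 := by
        have hr2 : 1 ≤ r ^ 2 := by nlinarith
        have e1 : 1 + 4 * (r + ‖w‖) ^ 2 ≤ (1 + 4 * (1 + ‖w‖) ^ 2) * r ^ 2 := by nlinarith
        have e2 : C * (1 + 4 * (r + ‖w‖) ^ 2) ≤ C * ((1 + 4 * (1 + ‖w‖) ^ 2) * r ^ 2) :=
          mul_le_mul_of_nonneg_left e1 hC.le
        have e3 : ‖g 0‖ ≤ ‖g 0‖ * r ^ 2 := by nlinarith [norm_nonneg (g 0)]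
        rw [hA]; nlinarith
      calc 6 * (2 * (C * (1 + 4 * (r + ‖w‖) ^ 2)) + 3 * ‖g 0‖) * r ≤ A * r ^ 2 * r :=
            mul_le_mul_of_nonneg_right h2 hr0.le
        _ = A * r ^ 3 := by ring
    have h4 := hle2 (max 1 (2 * A / ‖iteratedDeriv 3 g w‖)) (le_max_left _ _)
    have hm0 : 0 < max 1 (2 * A / ‖iteratedDeriv 3 g w‖) := lt_max_of_lt_left one_pos
    rw [le_div_iff₀ hm0] at h4
    have h5 : ‖iteratedDeriv 3 g w‖ * (2 * A / ‖iteratedDeriv 3 g w‖) ≤ A :=
      (mul_le_mul_of_nonneg_left (le_max_right _ _) hpos.le).trans h4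
    rw [mul_div_cancel₀ _ hpos.ne'] at h5
    have hA1 : A = 0 := by linarith
    rw [hA1] at h4
    have : 0 < ‖iteratedDeriv 3 g w‖ * max 1 (2 * 0 / ‖iteratedDeriv 3 g w‖) := by positivity
    linarith
  have d1 : Differentiable ℂ (deriv g) := (hg.contDiff (n := 2)).differentiable_deriv_two
  have d2 : Differentiable ℂ (deriv (deriv g)) := (d1.contDiff (n := 2)).differentiable_deriv_two
  have hc2 : ∀ z, deriv (deriv g) z = deriv (deriv g) 0 := by
    intro z
    refine is_const_of_deriv_eq_zero d2 (fun w => ?_) z 0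
    have := h3 w
    rwa [iteratedDeriv_succ, iteratedDeriv_succ, iteratedDeriv_one] at this
  set c2 := deriv (deriv g) 0 with hc2'
  have hc1 : ∀ z, deriv g z = c2 * z + deriv g 0 := by
    intro z
    have hD : Differentiable ℂ (fun z => deriv g z - c2 * z) := d1.sub (by fun_prop)
    have := is_const_of_deriv_eq_zero hD (fun w => by
      have h : HasDerivAt (fun z => deriv g z - c2 * z) (deriv (deriv g) w - c2 * 1) w :=
        (d1 w).hasDerivAt.sub ((hasDerivAt_id w).const_mul c2)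
      rw [h.deriv, hc2 w]; ring) z 0
    rw [mul_zero, sub_zero] at this
    rw [← this]; ring
  refine ⟨deriv g 0, c2 / 2, g 0, fun z => ?_⟩
  rw [hHg z]
  congr 1
  have hD : Differentiable ℂ (fun z => g z - (deriv g 0 * z + c2 / 2 * z ^ 2)) :=
    hg.sub (by fun_prop)
  have := is_const_of_deriv_eq_zero hD (fun w => by
    have e1 : HasDerivAt (fun z : ℂ => deriv g 0 * z + c2 / 2 * z ^ 2)
        (deriv g 0 * 1 + c2 / 2 * (2 * w ^ 1 * 1)) w := by
      refine ((hasDerivAt_id w).const_mul _).add (HasDerivAt.const_mul _ ?_)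
      have := hasDerivAt_pow 2 w
      rw [mul_one]
      exact this
    have h : HasDerivAt (fun z => g z - (deriv g 0 * z + c2 / 2 * z ^ 2)) _ w :=
      (hg w).hasDerivAt.sub e1
    rw [h.deriv, hc1 w]; ring) z 0
  have h4 : g z = g 0 + (deriv g 0 * z + c2 / 2 * z ^ 2) := by
    linear_combination this
  rw [h4]; ring

end Pool.Agent.R963.PhiL
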