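import Pool.Agent.R963.PhiL.Tails

/-!
# The factors are Gaussian mixtures of the required form
-/

namespace Pool.Agent.R963.PhiL

open MeasureTheory ProbabilityTheory Set Filter Topology
open scoped ENNReal NNReal

section Single

variable {μ : Measure ℝ} [IsProbabilityMeasure μ] {c : ℝ}

lemma integrable_exp_mul (hc : 0 < c) (hi : Integrable (fun x => Real.exp (c * x ^ 2)) μ) (t : ℝ) :
    Integrable (fun x => Real.exp (t * x)) μ := by
  refine (hi.const_mul (Real.exp (t ^ 2 / (4 * c)))).mono' (by fun_prop) (ae_of_all _ fun x => ?_)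
  rw [Real.norm_eq_abs, abs_of_pos (Real.exp_pos _), ← Real.exp_add]
  apply Real.exp_le_exp.mpr
  have h : t ^ 2 / (4 * c) + c * x ^ 2 - t * x = c * (x - t / (2 * c)) ^ 2 := by
    field_simp; ring
  have : 0 ≤ c * (x - t / (2 * c)) ^ 2 := by positivity
  linarith

lemma mgf_le (hc : 0 < c) (hi : Integrable (fun x => Real.exp (c * x ^ 2)) μ) (t : ℝ) :
    mgf id μ t ≤ Real.exp (t ^ 2 / (4 * c)) * ∫ x, Real.exp (c * x ^ 2) ∂μ := by
  rw [mgf, ← integral_const_mul]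
  apply integral_mono_of_nonneg (ae_of_all _ fun x => (Real.exp_pos _).le)
    (hi.const_mul _) (ae_of_all _ fun x => ?_)
  simp only [id]
  rw [← Real.exp_add]
  apply Real.exp_le_exp.mpr
  have h : t ^ 2 / (4 * c) + c * x ^ 2 - t * x = c * (x - t / (2 * c)) ^ 2 := by
    field_simp; ring
  have : 0 ≤ c * (x - t / (2 * c)) ^ 2 := by positivity
  linarith

lemma differentiable_cmgf (hc : 0 < c) (hi : Integrable (fun x => Real.exp (c * x ^ 2)) μ) :
    Differentiable ℂ (complexMGF id μ) := by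
  have huniv : integrableExpSet id μ = univ := by
    ext t
    simp only [integrableExpSet, mem_ofPred_eq, mem_univ, iff_true, id]
    exact integrable_exp_mul hc hi t
  intro z
  apply (hasDerivAt_complexMGF (X := id) (μ := μ) (z := z) ?_).differentiableAt
  rw [huniv, interior_univ]; trivial

/-- the entire function `(4 M - 1) / 3` -/
noncomputable def HH (μ : Measure ℝ) (z : ℂ) : ℂ := (4 * complexMGF id μ z - 1) / 3

lemma HH_diff (hc : 0 < c) (hi : Integrable (fun x => Real.exp (c * x ^ 2)) μ) :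
    Differentiable ℂ (HH μ) := by
  unfold HH
  exact (((differentiable_cmgf hc hi).const_mul 4).sub_const 1).div_const 3

lemma HH_mul_I {h : ℝ → ℝ} (hμ : ∀ ξ, charFun μ ξ = (((1 + 3 * h ξ) / 4 : ℝ) : ℂ)) (ξ : ℝ) :
    HH μ (ξ * Complex.I) = ((h ξ : ℝ) : ℂ) := by
  unfold HH
  rw [complexMGF_id_mul_I, hμ]
  push_cast
  ring

lemma HH_bound (hc : 0 < c) (hi : Integrable (fun x => Real.exp (c * x ^ 2)) μ) :
    ∃ C : ℝ, 0 < C ∧ ∀ z, ‖HH μ z‖ ≤ Real.exp (C * (1 + ‖z‖ ^ 2)) := by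
  set K := ∫ x, Real.exp (c * x ^ 2) ∂μ with hK
  have hK0 : 0 ≤ K := integral_nonneg fun x => (Real.exp_pos _).le
  refine ⟨Real.log (4 * K + 1) + 1 / (4 * c), ?_, fun z => ?_⟩
  · have : 0 ≤ Real.log (4 * K + 1) := Real.log_nonneg (by linarith)
    have : 0 < 1 / (4 * c) := by positivity
    linarith
  · have hlog : 0 ≤ Real.log (4 * K + 1) := Real.log_nonneg (by linarith)
    have hcc : 0 < 1 / (4 * c) := by positivity
    have h1 : ‖complexMGF id μ z‖ ≤ Real.exp (z.re ^ 2 / (4 * c)) * K :=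
      norm_complexMGF_le_mgf.trans (mgf_le hc hi z.re)
    have h2 : z.re ^ 2 ≤ ‖z‖ ^ 2 := by
      rw [← sq_abs z.re]
      exact pow_le_pow_left₀ (abs_nonneg _) (Complex.abs_re_le_norm z) 2
    have h3 : Real.exp (z.re ^ 2 / (4 * c)) ≤ Real.exp (‖z‖ ^ 2 / (4 * c)) :=
      Real.exp_le_exp.mpr (div_le_div_of_nonneg_right h2 (by positivity))
    have h4 : (1 : ℝ) ≤ Real.exp (‖z‖ ^ 2 / (4 * c)) := Real.one_le_exp (by positivity)
    have h5 : ‖HH μ z‖ ≤ (4 * K + 1) * Real.exp (‖z‖ ^ 2 / (4 * c)) := by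
      unfold HH
      rw [norm_div]
      have e1 : ‖(3 : ℂ)‖ = 3 := by norm_num
      have e2 : ‖4 * complexMGF id μ z - 1‖ ≤ 4 * ‖complexMGF id μ z‖ + 1 := by
        refine (norm_sub_le _ _).trans ?_
        rw [norm_mul, norm_one]
        norm_num
      rw [e1, div_le_iff₀ (by norm_num)]
      have e3 : ‖complexMGF id μ z‖ ≤ Real.exp (‖z‖ ^ 2 / (4 * c)) * K :=
        h1.trans (mul_le_mul_of_nonneg_right h3 hK0)
      nlinarith [mul_nonneg hK0 (Real.exp_pos (‖z‖ ^ 2 / (4 * c))).le]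
    refine h5.trans ?_
    rw [← Real.exp_log (by linarith : (0 : ℝ) < 4 * K + 1), ← Real.exp_add,
      Real.exp_log (by linarith : (0 : ℝ) < 4 * K + 1)]
    apply Real.exp_le_exp.mpr
    have : ‖z‖ ^ 2 / (4 * c) = 1 / (4 * c) * ‖z‖ ^ 2 := by ring
    rw [this]
    nlinarith [sq_nonneg ‖z‖, mul_nonneg hlog (sq_nonneg ‖z‖)]

end Single

variable {μ₁ μ₂ : Measure ℝ} [IsProbabilityMeasure μ₁] [IsProbabilityMeasure μ₂]

/-- **The key lemma** -/
theorem factor_gaussian {a : ℝ≥0} {h₁ h₂ : ℝ → ℝ}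
    (hμ₁ : ∀ ξ, charFun μ₁ ξ = (((1 + 3 * h₁ ξ) / 4 : ℝ) : ℂ))
    (hμ₂ : ∀ ξ, charFun μ₂ ξ = (((1 + 3 * h₂ ξ) / 4 : ℝ) : ℂ))
    (hprod : ∀ ξ, h₁ ξ * h₂ ξ = Real.exp (-(a * ξ ^ 2)))
    (hpos : ∀ ξ, 0 < h₁ ξ) (hle : ∀ ξ, h₁ ξ ≤ 1) :
    ∃ k : ℝ, 0 ≤ k ∧ ∀ ξ, h₁ ξ = Real.exp (-(k * ξ ^ 2)) := by
  obtain ⟨c, hc, hi1, hi2⟩ := exists_integrable hμ₁ hμ₂ hprod
  have hprodC : ∀ z : ℂ, HH μ₁ z * HH μ₂ z = Complex.exp (a * z ^ 2) := by
    have hd : Differentiable ℂ (fun z => HH μ₁ z * HH μ₂ z) := (HH_diff hc hi1).mul (HH_diff hc hi2)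
    have he : Differentiable ℂ (fun z : ℂ => Complex.exp (a * z ^ 2)) := by fun_prop
    have hA1 : AnalyticOnNhd ℂ (fun z => HH μ₁ z * HH μ₂ z) univ := fun z _ => hd.analyticAt z
    have hA2 : AnalyticOnNhd ℂ (fun z : ℂ => Complex.exp (a * z ^ 2)) univ :=
      fun z _ => he.analyticAt z
    have hfreq : ∃ᶠ z in 𝓝[≠] (0 : ℂ), HH μ₁ z * HH μ₂ z = Complex.exp (a * z ^ 2) := by
      have ht : Tendsto (fun ξ : ℝ => (ξ : ℂ) * Complex.I) (𝓝[≠] 0) (𝓝[≠] 0) := by
        apply tendsto_nhdsWithin_of_tendsto_nhds_of_eventually_within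
        · have : Continuous (fun ξ : ℝ => (ξ : ℂ) * Complex.I) := by fun_prop
          have h0 := this.tendsto 0
          rw [Complex.ofReal_zero, zero_mul] at h0
          exact h0.mono_left nhdsWithin_le_nhds
        · filter_upwards [self_mem_nhdsWithin] with ξ hξ
          exact mul_ne_zero (Complex.ofReal_ne_zero.mpr hξ) Complex.I_ne_zero
      refine ht.frequently (Eventually.frequently (Eventually.of_forall fun ξ => ?_))
      rw [HH_mul_I hμ₁, HH_mul_I hμ₂, ← Complex.ofReal_mul, hprod, Complex.ofReal_exp]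
      congr 1
      push_cast
      rw [mul_pow, Complex.I_sq]; ring
    have := hA1.eq_of_frequently_eq hA2 hfreq
    exact fun z => congrFun this z
  have hne : ∀ z, HH μ₁ z ≠ 0 := by
    intro z hz
    have := hprodC z
    rw [hz, zero_mul] at this
    exact Complex.exp_ne_zero _ this.symm
  obtain ⟨C, hC, hb⟩ := HH_bound hc hi1
  obtain ⟨b, e, d, hH⟩ := entire_quadratic (HH_diff hc hi1) hne hC hb
  have hreal : ∀ ξ : ℝ, h₁ ξ = Real.exp (d.re + -(b.im) * ξ + -(e.re) * ξ ^ 2) := by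
    intro ξ
    have h1 := HH_mul_I hμ₁ ξ
    rw [hH] at h1
    have h2 := congrArg (fun w : ℂ => ‖w‖) h1
    simp only [Complex.norm_exp, Complex.norm_real, Real.norm_eq_abs, abs_of_pos (hpos ξ)] at h2
    rw [← h2]
    congr 1
    simp [pow_two, Complex.mul_re, Complex.mul_im]
  have h0 : h₁ 0 = 1 := by
    have h1 := hμ₁ 0
    rw [charFun_zero, probReal_univ] at h1
    have h2 : (1 : ℝ) = (1 + 3 * h₁ 0) / 4 := by exact_mod_cast h1
    linarith
  have hd0 : d.re = 0 := by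
    have h1 := hreal 0
    rw [h0] at h1
    simp only [mul_zero, add_zero, ne_eq, OfNat.ofNat_ne_zero, not_false_eq_true, zero_pow] at h1
    have := congrArg Real.log h1
    rw [Real.log_one, Real.log_exp] at this
    exact this.symm
  have hsymm : ∀ ξ, h₁ (-ξ) = h₁ ξ := by
    intro ξ
    have h1 := charFun_neg (μ := μ₁) ξ
    rw [hμ₁, hμ₁, Complex.conj_ofReal] at h1
    have h2 : (1 + 3 * h₁ (-ξ)) / 4 = (1 + 3 * h₁ ξ) / 4 := by exact_mod_cast h1
    linarith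
  have hb0 : b.im = 0 := by
    have h1 := hsymm 1
    rw [hreal, hreal] at h1
    have := Real.exp_injective h1
    linarith
  have hfin : ∀ ξ, h₁ ξ = Real.exp (-(e.re * ξ ^ 2)) := by
    intro ξ
    rw [hreal ξ, hd0, hb0]
    congr 1; ring
  refine ⟨e.re, ?_, hfin⟩
  have h1 := hle 1
  rw [hfin, Real.exp_le_one_iff] at h1
  linarith

end Pool.Agent.R963.PhiL
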