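import Pool.Agent.R963.PhiL.Main

/-!
# MP_c7609e_pr, Q1: property (R) does not characterise the exponential

The function `L s = 1/4 + (3/4) exp (-s)` belongs to the class `𝓛`, is not of the form
`exp (-c s)`, and has property (R).
-/

namespace Pool.Agent.Results.MP_c7609e_pr.NonExponentialPropertyR

open MeasureTheory Set

open scoped ContDiff

/-- `L` is completely monotone on `[0, ∞)`: continuous on `[0, ∞)`, smooth on `(0, ∞)`, and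
`(-1)^n L^(n) ≥ 0` on `(0, ∞)` for all `n`. -/
def CompletelyMonotone (L : ℝ → ℝ) : Prop :=
  ContinuousOn L (Ici 0) ∧ ContDiffOn ℝ ∞ L (Ioi 0) ∧
    ∀ n : ℕ, ∀ s : ℝ, 0 < s → 0 ≤ (-1 : ℝ) ^ n * iteratedDeriv n L s

/-- The class `𝓛`: completely monotone, injective functions `[0, ∞) → (0, 1]` with `L 0 = 1`
(only the values of `L` on `[0, ∞)` matter). -/
structure ClassL (L : ℝ → ℝ) : Prop where
  cm : CompletelyMonotone L
  maps : ∀ s, 0 ≤ s → 0 < L s ∧ L s ≤ 1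
  inj : InjOn L (Ici 0)
  zero : L 0 = 1

/-- The operation `Φ_L (x, y) = L (L⁻¹ x + L⁻¹ y)` on the range of `L` on `[0, ∞)`. -/
noncomputable def Phi (L : ℝ → ℝ) (x y : ℝ) : ℝ :=
  L (Function.invFunOn L (Ici 0) x + Function.invFunOn L (Ici 0) y)

/-- The class `𝒞` of functions `ξ ↦ σ² ξ² / 2 + ∫_{(0,∞)} (1 - cos (t ξ)) ν(dt)` with `ν` a
measure on `(0, ∞)` such that `∫ (1 ∧ t²) ν(dt) < ∞`. -/
def ClassC (ψ : ℝ → ℝ) : Prop :=
  ∃ (σ : ℝ) (ν : Measure ℝ), ν (Iic 0) = 0 ∧ (∫⁻ t, ENNReal.ofReal (min 1 (t ^ 2)) ∂ν) < ⊤ ∧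
    ∀ ξ, ψ ξ = σ ^ 2 * ξ ^ 2 / 2 + ∫ t, (1 - Real.cos (t * ξ)) ∂ν

/-- The real-valued function `f` is the characteristic function of a probability measure. -/
def IsCharFun (f : ℝ → ℝ) : Prop :=
  ∃ μ : Measure ℝ, IsProbabilityMeasure μ ∧ ∀ ξ, charFun μ ξ = ((f ξ : ℝ) : ℂ)

/-- Property (R). -/
def PropertyR (L : ℝ → ℝ) : Prop :=
  ∀ a : ℝ, 0 < a → ∀ f₁ f₂ : ℝ → ℝ, IsCharFun f₁ → IsCharFun f₂ →
    (∀ ξ, f₁ ξ ∈ L '' Ici 0) → (∀ ξ, f₂ ξ ∈ L '' Ici 0) →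
    (∀ ξ, Phi L (f₁ ξ) (f₂ ξ) = L (a * ξ ^ 2)) →
    ∃ η₁ η₂ : ℝ → ℝ, ClassC η₁ ∧ ClassC η₂ ∧
      (∀ ξ, f₁ ξ = L (η₁ ξ)) ∧ (∀ ξ, f₂ ξ = L (η₂ ξ))

/-- The example. -/
noncomputable def L₀ (s : ℝ) : ℝ := 1 / 4 + 3 / 4 * Real.exp (-s)

lemma iteratedDeriv_L₀ (n : ℕ) :
    iteratedDeriv n L₀ = fun s => (if n = 0 then 1 / 4 else 0) + 3 / 4 * ((-1) ^ n * Real.exp (-s)) := by
  induction n with
  | zero => ext s; simp [L₀]
  | succ n ih =>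
    rw [iteratedDeriv_succ, ih]
    ext s
    have h : HasDerivAt (fun s : ℝ => (if n = 0 then (1 / 4 : ℝ) else 0) +
        3 / 4 * ((-1) ^ n * Real.exp (-s))) (3 / 4 * ((-1) ^ n * (Real.exp (-s) * (-1)))) s :=
      ((((hasDerivAt_neg s).exp).const_mul _).const_mul _).const_add _
    rw [h.deriv, if_neg (Nat.succ_ne_zero n), pow_succ]
    ring

lemma classL_L₀ : ClassL L₀ where
  cm := by
    refine ⟨?_, ?_, ?_⟩
    · have : Continuous L₀ := by unfold L₀; fun_prop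
      exact this.continuousOn
    · have : ContDiff ℝ ∞ L₀ := by unfold L₀; fun_prop
      exact this.contDiffOn
    · intro n s _
      rw [iteratedDeriv_L₀]
      have hpos := Real.exp_pos (-s)
      have hsq : (-1 : ℝ) ^ n * (-1) ^ n = 1 := by
        rw [← mul_pow]; norm_num
      have : (-1 : ℝ) ^ n * ((if n = 0 then 1 / 4 else 0) + 3 / 4 * ((-1) ^ n * Real.exp (-s))) =
          (-1 : ℝ) ^ n * (if n = 0 then 1 / 4 else 0) +
            3 / 4 * (((-1 : ℝ) ^ n * (-1) ^ n) * Real.exp (-s)) := by ring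
      rw [this, hsq]
      split_ifs with h
      · subst h; norm_num; positivity
      · rw [mul_zero]; positivity
  maps s hs := by
    unfold L₀
    have h1 := Real.exp_pos (-s)
    have h2 : Real.exp (-s) ≤ 1 := Real.exp_le_one_iff.mpr (by linarith)
    constructor <;> linarith
  inj := by
    intro s _ t _ h
    unfold L₀ at h
    have h1 : Real.exp (-s) = Real.exp (-t) := by linarith
    have := Real.exp_injective h1
    linarith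
  zero := by unfold L₀; rw [neg_zero, Real.exp_zero]; norm_num

lemma classC_sq {k : ℝ} (hk : 0 ≤ k) : ClassC (fun ξ => k * ξ ^ 2) := by
  refine ⟨Real.sqrt (2 * k), 0, by simp, by simp, fun ξ => ?_⟩
  rw [Real.sq_sqrt (by linarith), integral_zero_measure]
  ring

lemma propertyR_L₀ : PropertyR L₀ := by
  intro a ha f₁ f₂ hf₁ hf₂ hr₁ hr₂ hPhi
  obtain ⟨μ₁, i₁, hμ₁⟩ := hf₁
  obtain ⟨μ₂, i₂, hμ₂⟩ := hf₂
  choose s₁ hs₁ hfs₁ using hr₁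
  choose s₂ hs₂ hfs₂ using hr₂
  have hinv : ∀ s, 0 ≤ s → Function.invFunOn L₀ (Ici 0) (L₀ s) = s := fun s hs =>
    classL_L₀.inj.leftInvOn_invFunOn hs
  have hsum : ∀ ξ, s₁ ξ + s₂ ξ = a * ξ ^ 2 := by
    intro ξ
    have h := hPhi ξ
    rw [← hfs₁, ← hfs₂] at h
    unfold Phi at h
    rw [hinv _ (hs₁ ξ), hinv _ (hs₂ ξ)] at h
    exact classL_L₀.inj (mem_Ici.mpr (add_nonneg (mem_Ici.mp (hs₁ ξ)) (mem_Ici.mp (hs₂ ξ))))
      (mem_Ici.mpr (mul_nonneg ha.le (sq_nonneg ξ))) h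
  have hc₁ : ∀ ξ, charFun μ₁ ξ = (((1 + 3 * Real.exp (-s₁ ξ)) / 4 : ℝ) : ℂ) := by
    intro ξ
    rw [hμ₁, ← hfs₁]
    congr 1
    unfold L₀; ring
  have hc₂ : ∀ ξ, charFun μ₂ ξ = (((1 + 3 * Real.exp (-s₂ ξ)) / 4 : ℝ) : ℂ) := by
    intro ξ
    rw [hμ₂, ← hfs₂]
    congr 1
    unfold L₀; ring
  have hp : ∀ ξ, Real.exp (-s₁ ξ) * Real.exp (-s₂ ξ) =
      Real.exp (-(((⟨a, ha.le⟩ : NNReal) : ℝ) * ξ ^ 2)) := by
    intro ξ
    rw [← Real.exp_add]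
    congr 1
    have := hsum ξ
    rw [show ((⟨a, ha.le⟩ : NNReal) : ℝ) = a from rfl]
    linarith
  obtain ⟨k₁, hk₁, hη₁⟩ := Pool.Agent.R963.PhiL.factor_gaussian (h₁ := fun ξ => Real.exp (-s₁ ξ))
    (h₂ := fun ξ => Real.exp (-s₂ ξ)) hc₁ hc₂ hp (fun ξ => Real.exp_pos _)
    (fun ξ => Real.exp_le_one_iff.mpr (neg_nonpos.mpr (mem_Ici.mp (hs₁ ξ))))
  obtain ⟨k₂, hk₂, hη₂⟩ := Pool.Agent.R963.PhiL.factor_gaussian (h₁ := fun ξ => Real.exp (-s₂ ξ))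
    (h₂ := fun ξ => Real.exp (-s₁ ξ)) hc₂ hc₁ (fun ξ => by rw [mul_comm]; exact hp ξ)
    (fun ξ => Real.exp_pos _)
    (fun ξ => Real.exp_le_one_iff.mpr (neg_nonpos.mpr (mem_Ici.mp (hs₂ ξ))))
  refine ⟨fun ξ => k₁ * ξ ^ 2, fun ξ => k₂ * ξ ^ 2, classC_sq hk₁, classC_sq hk₂, fun ξ => ?_,
    fun ξ => ?_⟩
  · rw [← hfs₁]
    unfold L₀
    rw [hη₁ ξ]
  · rw [← hfs₂]
    unfold L₀
    rw [hη₂ ξ]

/-- The negated form of Q1: there is a function `L` in the class `𝓛`, not of the form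
`exp (-c s)` with `c > 0`, that has property (R). -/
theorem result : ∃ L : ℝ → ℝ, ClassL L ∧
    (¬ ∃ c : ℝ, 0 < c ∧ ∀ s, 0 ≤ s → L s = Real.exp (-(c * s))) ∧ PropertyR L := by
  refine ⟨L₀, classL_L₀, ?_, propertyR_L₀⟩
  rintro ⟨c, hc, h⟩
  have h1 := h (4 / c) (by positivity)
  rw [mul_div_cancel₀ _ hc.ne'] at h1
  have h2 : (1 : ℝ) / 4 < L₀ (4 / c) := by
    unfold L₀
    have := Real.exp_pos (-(4 / c))
    linarith
  rw [h1] at h2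
  have h3 : (5 : ℝ) ≤ Real.exp 4 := by
    have := Real.add_one_le_exp (4 : ℝ)
    linarith
  rw [Real.exp_neg] at h2
  have h4 : (Real.exp 4)⁻¹ ≤ 5⁻¹ := inv_anti₀ (by norm_num) h3
  norm_num at h4 h2
  linarith

end Pool.Agent.Results.MP_c7609e_pr.NonExponentialPropertyR
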