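import Pool.Agent.R963.PhiL.Entire

/-!
# Gaussian tails of the factors
-/

namespace Pool.Agent.R963.PhiL

open MeasureTheory ProbabilityTheory Set Filter Topology
open scoped ENNReal NNReal

variable {μ₁ μ₂ : Measure ℝ} [IsProbabilityMeasure μ₁] [IsProbabilityMeasure μ₂]

/-- the set outside `[-R, R]` -/
def Out (R : ℝ) : Set ℝ := {x | R < |x|}

lemma measurableSet_Out (R : ℝ) : MeasurableSet (Out R) :=
  measurableSet_lt measurable_const (by fun_prop)

lemma map_neg_eq {μ : Measure ℝ} [IsProbabilityMeasure μ] {h : ℝ → ℝ}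
    (hμ : ∀ ξ, charFun μ ξ = ((h ξ : ℝ) : ℂ)) : μ.map (fun x => -x) = μ := by
  have : IsProbabilityMeasure (μ.map (fun x : ℝ => -x)) :=
    Measure.isProbabilityMeasure_map (by fun_prop)
  apply Measure.ext_of_charFun
  ext t
  have h1 : charFun (μ.map (fun x : ℝ => -x)) t = charFun μ (-t) := by
    have := charFun_map_mul (μ := μ) (-1) t
    rw [neg_one_mul] at this
    rw [← this]
    congr 2
    ext x; ring
  rw [h1, charFun_neg, hμ t, Complex.conj_ofReal]

lemma tail_sum {R : ℝ} (h2 : μ₂.map (fun x => -x) = μ₂) :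
    μ₁.real (Out R) + μ₂.real (Out R) - μ₁.real (Out R) * μ₂.real (Out R) ≤
      2 * (μ₁ ∗ μ₂).real (Out R) := by
  have hm := measurableSet_Out R
  have e1 : (μ₁ ∗ μ₂).real (Out R) = (μ₁.prod μ₂).real {p | R < |p.1 + p.2|} := by
    rw [Measure.conv, map_measureReal_apply (by fun_prop) hm]
    rfl
  have e2 : (μ₁ ∗ μ₂).real (Out R) = (μ₁.prod μ₂).real {p | R < |p.1 - p.2|} := by
    have hh : μ₁.prod μ₂ = (μ₁.prod μ₂).map (fun p : ℝ × ℝ => (p.1, -p.2)) := by
      conv_lhs => rw [← h2]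
      have := Measure.map_prod_map μ₁ μ₂ (measurable_id) (measurable_neg (G := ℝ))
      rw [Measure.map_id] at this
      rw [show (fun x : ℝ => -x) = Neg.neg from rfl, this]
      rfl
    rw [e1]
    conv_lhs => rw [hh]
    rw [map_measureReal_apply (by fun_prop) (measurableSet_lt measurable_const (by fun_prop))]
    rfl
  have e3 : (μ₁.prod μ₂).real ((Out R ×ˢ univ) ∪ (univ ×ˢ Out R)) =
      μ₁.real (Out R) + μ₂.real (Out R) - μ₁.real (Out R) * μ₂.real (Out R) := by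
    have hc : ((Out R ×ˢ (univ : Set ℝ)) ∪ ((univ : Set ℝ) ×ˢ Out R)) =
        ((Out R)ᶜ ×ˢ (Out R)ᶜ)ᶜ := by
      ext p; simp only [mem_union, mem_prod, mem_univ, and_true, true_and, mem_compl_iff, not_and,
        not_not]
      tauto
    rw [hc, measureReal_compl (hm.compl.prod hm.compl), measureReal_prod_prod,
      measureReal_compl hm, measureReal_compl hm]
    simp only [probReal_univ]
    ring
  have hsub : ((Out R ×ˢ (univ : Set ℝ)) ∪ ((univ : Set ℝ) ×ˢ Out R)) ⊆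
      {p : ℝ × ℝ | R < |p.1 + p.2|} ∪ {p : ℝ × ℝ | R < |p.1 - p.2|} := by
    rintro ⟨x, y⟩ hp
    have hmax : R < max |x| |y| := by
      rcases hp with hp | hp
      · exact lt_max_of_lt_left hp.1
      · exact lt_max_of_lt_right hp.2
    by_contra hc
    simp only [mem_union, mem_ofPred_eq, not_or, not_lt] at hc
    have h1 := abs_le.mp hc.1
    have h2 := abs_le.mp hc.2
    rcases lt_max_iff.mp hmax with h | h
    · rcases lt_abs.mp h with h | h <;> linarith
    · rcases lt_abs.mp h with h | h <;> linarith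
  have h4 : (μ₁.prod μ₂).real ((Out R ×ˢ univ) ∪ (univ ×ˢ Out R)) ≤
      (μ₁.prod μ₂).real {p | R < |p.1 + p.2|} + (μ₁.prod μ₂).real {p | R < |p.1 - p.2|} :=
    (measureReal_mono hsub).trans (measureReal_union_le _ _)
  rw [e3, ← e1, ← e2] at h4
  linarith

/-- the identity between measures -/
lemma measure_identity {a : ℝ≥0} {h₁ h₂ : ℝ → ℝ}
    (hμ₁ : ∀ ξ, charFun μ₁ ξ = (((1 + 3 * h₁ ξ) / 4 : ℝ) : ℂ))
    (hμ₂ : ∀ ξ, charFun μ₂ ξ = (((1 + 3 * h₂ ξ) / 4 : ℝ) : ℂ))
    (hprod : ∀ ξ, h₁ ξ * h₂ ξ = Real.exp (-(a * ξ ^ 2))) :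
    (16 : ℝ≥0) • (μ₁ ∗ μ₂) + Measure.dirac 0 =
      (9 : ℝ≥0) • gaussianReal 0 (2 * a) + ((4 : ℝ≥0) • μ₁ + (4 : ℝ≥0) • μ₂) := by
  have hi : ∀ (ν : Measure ℝ) [IsFiniteMeasure ν] (t : ℝ),
      Integrable (fun x : ℝ => Complex.exp (t * x * Complex.I)) ν := by
    intro ν _ t
    refine (integrable_const (1 : ℝ)).mono' (by fun_prop) (ae_of_all _ fun x => ?_)
    rw [← Complex.ofReal_mul, Complex.norm_exp_ofReal_mul_I]
  apply Measure.ext_of_charFun
  ext t
  rw [charFun_apply_real, charFun_apply_real, integral_add_measure (hi _ t) (hi _ t),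
    integral_add_measure (hi _ t) (hi _ t), integral_add_measure (hi _ t) (hi _ t),
    integral_smul_nnreal_measure, integral_smul_nnreal_measure, integral_smul_nnreal_measure,
    integral_smul_nnreal_measure]
  simp only [← charFun_apply_real]
  rw [charFun_conv, charFun_dirac, charFun_gaussianReal, hμ₁, hμ₂]
  have e1 : Complex.exp (t * ((0 : ℝ) : ℂ) * Complex.I - ((2 * a : ℝ≥0) : ℂ) * t ^ 2 / 2) =
      ((h₁ t * h₂ t : ℝ) : ℂ) := by
    rw [hprod t, Complex.ofReal_exp]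
    congr 1
    push_cast
    ring
  rw [e1]
  simp only [NNReal.smul_def, inner_zero_left, Complex.ofReal_zero, zero_mul, Complex.exp_zero]
  simp only [NNReal.coe_ofNat, Complex.real_smul]
  push_cast
  ring

/-- the tail inequality -/
lemma tail_le {a : ℝ≥0} {h₁ h₂ : ℝ → ℝ}
    (hμ₁ : ∀ ξ, charFun μ₁ ξ = (((1 + 3 * h₁ ξ) / 4 : ℝ) : ℂ))
    (hμ₂ : ∀ ξ, charFun μ₂ ξ = (((1 + 3 * h₂ ξ) / 4 : ℝ) : ℂ))
    (hprod : ∀ ξ, h₁ ξ * h₂ ξ = Real.exp (-(a * ξ ^ 2))) {R : ℝ} (hR : 0 ≤ R)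
    (ht1 : μ₁.real (Out R) ≤ 1 / 4) (ht2 : μ₂.real (Out R) ≤ 1 / 4) :
    μ₁.real (Out R) + μ₂.real (Out R) ≤ 3 * (gaussianReal 0 (2 * a)).real (Out R) := by
  have hid := measure_identity hμ₁ hμ₂ hprod
  have h1 : ((16 : ℝ≥0) • (μ₁ ∗ μ₂) + Measure.dirac 0 : Measure ℝ).real (Out R) =
      ((9 : ℝ≥0) • gaussianReal 0 (2 * a) + ((4 : ℝ≥0) • μ₁ + (4 : ℝ≥0) • μ₂)).real (Out R) := by
    rw [hid]
  rw [measureReal_add_apply, measureReal_add_apply, measureReal_add_apply] at h1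
  simp only [measureReal_nnreal_smul_apply] at h1
  have h0 : (Measure.dirac (0 : ℝ)).real (Out R) = 0 := by
    rw [measureReal_def, Measure.dirac_apply' _ (measurableSet_Out R), indicator_of_notMem]
    · simp
    · simp [Out, hR]
  rw [h0] at h1
  have h2 := tail_sum (R := R) (μ₁ := μ₁) (μ₂ := μ₂) (map_neg_eq hμ₂)
  have p1 : 0 ≤ μ₁.real (Out R) := measureReal_nonneg
  have p2 : 0 ≤ μ₂.real (Out R) := measureReal_nonneg
  simp only [NNReal.coe_ofNat] at h1
  nlinarith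

lemma tail_tendsto {μ : Measure ℝ} [IsProbabilityMeasure μ] :
    Tendsto (fun R : ℝ => μ.real (Out R)) atTop (𝓝 0) := by
  have h := tendsto_measure_iInter_atTop (μ := μ) (s := fun R : ℝ => Out R)
    (fun R => (measurableSet_Out R).nullMeasurableSet)
    (fun R S hRS x hx => lt_of_le_of_lt hRS hx) ⟨0, measure_ne_top _ _⟩
  have he : ⋂ R : ℝ, Out R = ∅ := by
    rw [eq_empty_iff_forall_notMem]
    intro x hx
    have : |x| < |x| := mem_iInter.mp hx |x|
    exact lt_irrefl _ this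
  rw [he, measure_empty] at h
  exact (ENNReal.tendsto_toReal ENNReal.zero_ne_top).comp h

/-- a tail comparison gives integrability of `exp (c x ^ 2)` -/
lemma integrable_of_tail {μ γ : Measure ℝ} [IsProbabilityMeasure μ] [IsProbabilityMeasure γ]
    {R₀ c : ℝ} (hc : 0 < c)
    (htail : ∀ R, R₀ ≤ R → μ.real (Out R) ≤ 3 * γ.real (Out R))
    (hγ : Integrable (fun x => Real.exp (c * x ^ 2)) γ) :
    Integrable (fun x => Real.exp (c * x ^ 2)) μ := by
  have hmeas : Measurable (fun x : ℝ => Real.exp (c * x ^ 2)) := by fun_prop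
  have hlay : ∀ ν : Measure ℝ, ∫⁻ x, ENNReal.ofReal (Real.exp (c * x ^ 2)) ∂ν =
      ∫⁻ t in Ioi 0, ν {x : ℝ | t < Real.exp (c * x ^ 2)} := fun ν =>
    lintegral_eq_lintegral_meas_lt ν (ae_of_all _ fun x => (Real.exp_pos _).le)
      hmeas.aemeasurable
  have hfin : ∫⁻ x, ENNReal.ofReal (Real.exp (c * x ^ 2)) ∂μ < ∞ := by
    rw [hlay μ]
    have hle : ∀ t ∈ Ioi (0 : ℝ), μ {x : ℝ | t < Real.exp (c * x ^ 2)} ≤
        (Iio (Real.exp (c * R₀ ^ 2))).indicator 1 t + 3 * γ {x : ℝ | t < Real.exp (c * x ^ 2)} := by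
      intro t ht
      by_cases hlt : t < Real.exp (c * R₀ ^ 2)
      · rw [indicator_of_mem (show t ∈ Iio (Real.exp (c * R₀ ^ 2)) from hlt)]
        exact (prob_le_one).trans (le_add_of_nonneg_right zero_le)
      · rw [not_lt] at hlt
        have ht0 : (0 : ℝ) < t := ht
        have hlog : c * R₀ ^ 2 ≤ Real.log t := by
          rw [← Real.log_exp (c * R₀ ^ 2)]
          exact Real.log_le_log (Real.exp_pos _) hlt
        have hdiv : R₀ ^ 2 ≤ Real.log t / c := by
          rw [le_div_iff₀ hc]; linarith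
        have hset : {x : ℝ | t < Real.exp (c * x ^ 2)} = Out (Real.sqrt (Real.log t / c)) := by
          ext x
          simp only [mem_ofPred_eq, Out]
          rw [← Real.log_lt_iff_lt_exp ht0, ← Real.sqrt_sq_eq_abs,
            Real.sqrt_lt_sqrt_iff ((sq_nonneg _).trans hdiv), div_lt_iff₀ hc, mul_comm c]
        have hR : R₀ ≤ Real.sqrt (Real.log t / c) := Real.le_sqrt_of_sq_le hdiv
        have hlt' := htail _ hR
        rw [hset]
        refine le_trans ?_ (le_add_of_nonneg_left zero_le)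
        have hm1 : μ (Out (Real.sqrt (Real.log t / c))) =
            ENNReal.ofReal (μ.real (Out (Real.sqrt (Real.log t / c)))) := by
          rw [measureReal_def, ENNReal.ofReal_toReal (measure_ne_top _ _)]
        have hm2 : γ (Out (Real.sqrt (Real.log t / c))) =
            ENNReal.ofReal (γ.real (Out (Real.sqrt (Real.log t / c)))) := by
          rw [measureReal_def, ENNReal.ofReal_toReal (measure_ne_top _ _)]
        rw [hm1, hm2]
        calc ENNReal.ofReal (μ.real (Out (Real.sqrt (Real.log t / c))))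
            ≤ ENNReal.ofReal (3 * γ.real (Out (Real.sqrt (Real.log t / c)))) :=
              ENNReal.ofReal_le_ofReal hlt'
          _ = 3 * ENNReal.ofReal (γ.real (Out (Real.sqrt (Real.log t / c)))) := by
              rw [ENNReal.ofReal_mul (by norm_num), ENNReal.ofReal_ofNat]
    refine (setLIntegral_mono' measurableSet_Ioi hle).trans_lt ?_
    rw [lintegral_add_left (measurable_one.indicator measurableSet_Iio),
      lintegral_const_mul' _ _ (by norm_num), ← hlay γ,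
      lintegral_indicator_one measurableSet_Iio, Measure.restrict_apply measurableSet_Iio]
    apply ENNReal.add_lt_top.mpr ⟨?_, ?_⟩
    · refine (measure_mono (t := Ioo 0 (Real.exp (c * R₀ ^ 2))) fun x hx => ⟨hx.2, hx.1⟩).trans_lt ?_
      rw [Real.volume_Ioo]
      exact ENNReal.ofReal_lt_top
    · apply ENNReal.mul_lt_top (by norm_num)
      have := hγ.2
      rwa [hasFiniteIntegral_iff_ofReal (ae_of_all _ fun x => (Real.exp_pos _).le)] at this
  refine ⟨hmeas.aestronglyMeasurable, ?_⟩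
  rw [hasFiniteIntegral_iff_ofReal (ae_of_all _ fun x => (Real.exp_pos _).le)]
  exact hfin

/-- both factors have Gaussian exponential moments -/
lemma exists_integrable {a : ℝ≥0} {h₁ h₂ : ℝ → ℝ}
    (hμ₁ : ∀ ξ, charFun μ₁ ξ = (((1 + 3 * h₁ ξ) / 4 : ℝ) : ℂ))
    (hμ₂ : ∀ ξ, charFun μ₂ ξ = (((1 + 3 * h₂ ξ) / 4 : ℝ) : ℂ))
    (hprod : ∀ ξ, h₁ ξ * h₂ ξ = Real.exp (-(a * ξ ^ 2))) :
    ∃ c : ℝ, 0 < c ∧ Integrable (fun x => Real.exp (c * x ^ 2)) μ₁ ∧
      Integrable (fun x => Real.exp (c * x ^ 2)) μ₂ := by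
  obtain ⟨c, hc, hγ⟩ := IsGaussian.exists_integrable_exp_sq (gaussianReal 0 (2 * a))
  have hγ' : Integrable (fun x : ℝ => Real.exp (c * x ^ 2)) (gaussianReal 0 (2 * a)) := by
    refine hγ.congr (ae_of_all _ fun x => ?_)
    simp
  obtain ⟨R₀, hR⟩ := (((tail_tendsto (μ := μ₁)).eventually_lt_const
    (by norm_num : (0 : ℝ) < 1 / 4)).and (((tail_tendsto (μ := μ₂)).eventually_lt_const
    (by norm_num : (0 : ℝ) < 1 / 4)).and (eventually_ge_atTop 0))).exists_forall_of_atTop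
  have hR0 : 0 ≤ R₀ := (hR R₀ le_rfl).2.2
  have htail : ∀ R, R₀ ≤ R → μ₁.real (Out R) + μ₂.real (Out R) ≤
      3 * (gaussianReal 0 (2 * a)).real (Out R) := fun R h =>
    tail_le hμ₁ hμ₂ hprod (hR0.trans h) (hR R h).1.le (hR R h).2.1.le
  refine ⟨c, hc, integrable_of_tail (R₀ := R₀) hc (fun R h => ?_) hγ',
    integrable_of_tail (R₀ := R₀) hc (fun R h => ?_) hγ'⟩
  · have := htail R h
    have h2 : 0 ≤ μ₂.real (Out R) := measureReal_nonneg
    linarith
  · have := htail R h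
    have h2 : 0 ≤ μ₁.real (Out R) := measureReal_nonneg
    linarith

end Pool.Agent.R963.PhiL
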